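import Pool.Agent.W967.AR.Asym
import Pool.Agent.W967.AR.LowerNum
import Pool.Agent.W967.AR.Blocks

/-!
# Diagonal Ramsey colourings with many automorphisms

A two-colouring of the edges of the complete graph on `Fin n` is a graph `G` (the first colour);
it has no monochromatic `K_k` if `G.CliqueFree k` and `Gᶜ.CliqueFree k`, and `G ≃g G` is the
group of all permutations of the vertices that preserve both colours.

1. Every graph without `K_a` and without independent sets of size `c` has at most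
   `(a + c - 3) ^ n` automorphisms.
2. If `k ≤ s b` and a colouring without monochromatic `K_k` has at least `(8 b) ^ n`
   automorphisms, then `n ≤ 6144 b k ^ 6 (s + k choose s)`.
3. Hence for these colourings `log n / k` is at most `(1 + 1 / b + log b) / b + o(1)`.
4. For large `k`, a colouring without monochromatic `K_k` on at least `2 ^ (k / 2)` vertices
   has fewer than `80 ^ n` automorphisms.
5. More generally, for every `θ > 0` there is `A` such that for large `k` every such colouring on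
   at least `exp (θ k)` vertices has fewer than `A ^ n` automorphisms.
6. The rate in 3 has the right order `log b / b`: for large `k` there are such colourings with
   at least `(b / e) ^ n` automorphisms and `log n / k ≥ log b / (8 b)`.
7. The structural reason, for arbitrary colourings: if `k ≤ s b`, a colouring without
   monochromatic `K_k` has fewer than `2 (s + k choose s) (2 b D + 1)` pairwise disjoint
   monochromatic `K_b` in which any two vertices differ in at most `D` neighbours.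
-/

set_option autoImplicit false

namespace Pool.Agent.Results.MP_28724c_co.AutomorphismGroups

open Classical in
theorem result :
    (∀ (n a c : ℕ) (G : SimpleGraph (Fin n)), G.CliqueFree a → Gᶜ.CliqueFree c →
      Nat.card (G ≃g G) ≤ (a + c - 3) ^ n) ∧
    (∀ (n k b s : ℕ) (G : SimpleGraph (Fin n)), G.CliqueFree k → Gᶜ.CliqueFree k →
      1 ≤ b → k ≤ s * b → (8 * b) ^ n ≤ Nat.card (G ≃g G) →
      n ≤ 6144 * b * k ^ 6 * (s + k).choose s) ∧
    (∀ b : ℕ, 1 ≤ b → ∀ ε : ℝ, 0 < ε → ∃ k₀ : ℕ, ∀ k ≥ k₀, ∀ (n : ℕ) (G : SimpleGraph (Fin n)),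
      G.CliqueFree k → Gᶜ.CliqueFree k → (8 * b) ^ n ≤ Nat.card (G ≃g G) →
      Real.log n ≤ ((1 + 1 / (b : ℝ) + Real.log b) / b + ε) * k) ∧
    (∃ k₀ : ℕ, ∀ k ≥ k₀, ∀ (n : ℕ) (G : SimpleGraph (Fin n)),
      G.CliqueFree k → Gᶜ.CliqueFree k → (2 : ℝ) ^ ((k : ℝ) / 2) ≤ n →
      Nat.card (G ≃g G) < 80 ^ n) ∧
    (∀ θ : ℝ, 0 < θ → ∃ A k₀ : ℕ, ∀ k ≥ k₀, ∀ (n : ℕ) (G : SimpleGraph (Fin n)),
      G.CliqueFree k → Gᶜ.CliqueFree k → Real.exp (θ * k) ≤ n → Nat.card (G ≃g G) < A ^ n) ∧
    (∀ b : ℕ, 2 ≤ b → ∃ k₀ : ℕ, ∀ k ≥ k₀, ∃ (n : ℕ) (G : SimpleGraph (Fin n)),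
      G.CliqueFree k ∧ Gᶜ.CliqueFree k ∧ ((b : ℝ) / Real.exp 1) ^ n ≤ Nat.card (G ≃g G) ∧
      Real.log b / (8 * b) * k ≤ Real.log n) ∧
    (∀ (n k b s D t : ℕ) (G : SimpleGraph (Fin n)), G.CliqueFree k → Gᶜ.CliqueFree k →
      1 ≤ b → k ≤ s * b → ∀ B : Fin t → Finset (Fin n), (∀ i, (B i).card = b) →
      (∀ i, G.IsClique (B i : Set (Fin n)) ∨ Gᶜ.IsClique (B i : Set (Fin n))) →
      (∀ i j, i ≠ j → Disjoint (B i) (B j)) →
      (∀ i, ∀ x ∈ B i, ∀ y ∈ B i,
        (Finset.univ.filter (fun z => ¬ (G.Adj x z ↔ G.Adj y z))).card ≤ D) →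
      t < 2 * (s + k).choose s * (2 * (b * D) + 1)) := by
  refine ⟨fun n a c G h1 h2 => Pool.Agent.W967.AR.card_aut_le G h1 h2,
    fun n k b s G h1 h2 hb hs hc => Pool.Agent.W967.AR.explicit_bound G
      (Pool.Agent.W967.AR.noHom_of_cliqueFree h1 h2) hb hs hc,
    fun b hb ε hε => Pool.Agent.W967.AR.growth b hb ε hε,
    Pool.Agent.W967.AR.few_automorphisms,
    fun θ hθ => Pool.Agent.W967.AR.threshold θ hθ,
    fun b hb => Pool.Agent.W967.AR.sharp b hb,
    fun n k b s D t G h1 h2 hb hs B hBc hBh hd hn =>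
      Pool.Agent.W967.AR.few_blocks' G h1 h2 hb hs B hBc hBh hd hn⟩

end Pool.Agent.Results.MP_28724c_co.AutomorphismGroups
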