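import Pool.Agent.W988.R3.Final
import Pool.Agent.H111R2.Final

namespace Pool.Agent.Results.MP_28724c_co.DiagUpper4

/-- Every colouring of the edges of the complete graph on `n` vertices with two colours (the edges of
`G` are red, the edges of its complement are blue) contains a `K_k` all of whose edges receive the
same colour. -/
def Arrows (n k : ℕ) : Prop :=
  ∀ G : SimpleGraph (Fin n), (∃ s : Finset (Fin n), G.IsNClique k s) ∨
    (∃ s : Finset (Fin n), Gᶜ.IsNClique k s)

/-- The diagonal Ramsey number `R(k,k)`: the least positive `n` with `Arrows n k`. -/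
noncomputable def R (k : ℕ) : ℕ := sInf {n : ℕ | 0 < n ∧ Arrows n k}

/-- **Diagonal Ramsey numbers.** `R(k,k) < 3.177 ^ k` for all sufficiently large `k`
(and the set defining `R(k,k)` is non-empty, so that `R(k,k)` has the Ramsey property);
hence `limsup log R(k,k) / k ≤ log 3.177`. -/
theorem result :
    (∃ K : ℕ, ∀ k : ℕ, K ≤ k →
      (0 < R k ∧ Arrows (R k) k) ∧ (R k : ℝ) < (3.177 : ℝ) ^ k) ∧
    Filter.limsup (fun k : ℕ => Real.log (R k) / k) Filter.atTop ≤ Real.log 3.177 := by
  have hexp : Real.exp (1.155789499 : ℝ) < 3.177 := by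
    have h1 := Real.exp_one_lt_d9
    have h2 := Real.exp_bound' (x := 0.155789499) (by norm_num) (by norm_num) (n := 10)
      (by norm_num)
    have h3 : Real.exp (1.155789499 : ℝ) = Real.exp 1 * Real.exp 0.155789499 := by
      rw [← Real.exp_add]
      norm_num
    have h4 : Real.exp (0.155789499 : ℝ) < 1.16859 := by
      refine lt_of_le_of_lt h2 ?_
      simp only [Finset.sum_range_succ, Finset.sum_range_zero, Nat.factorial]
      norm_num
    rw [h3]
    calc Real.exp 1 * Real.exp 0.155789499 ≤ 2.7182818286 * 1.16859 :=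
          mul_le_mul h1.le h4.le (Real.exp_pos _).le (by norm_num)
      _ < 3.177 := by norm_num
  have hmain : ∃ K : ℕ, ∀ k : ℕ, K ≤ k →
      (0 < R k ∧ Arrows (R k) k) ∧ (R k : ℝ) < (3.177 : ℝ) ^ k := by
    obtain ⟨K, hK⟩ := Pool.Agent.H111R2.ramsey_bound_of (v := 1.155789499) (c := 3.177)
      (by norm_num) hexp (by
      obtain ⟨C, hC, h⟩ := W988.R3.bound
      refine ⟨2 * C, by positivity, ?_⟩
      intro k V _ G S h1 h2
      have h3 := (h k k V G S (fun t ht hc => h1 t ht hc) (fun t ht hc => h2 t ht hc) _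
        (List.mem_map_of_mem W988.R3.mem_last)).1
      have h4 : H110R2.lv (H110R2.rl W988.R3.gc.N (573071878, 582717621)) k k
          = 1.155789499 * k := by
        show ((573071878 : ℕ) : ℝ) / ((1000000000 : ℕ) : ℝ) * k
          + ((582717621 : ℕ) : ℝ) / ((1000000000 : ℕ) : ℝ) * k = 1.155789499 * k
        push_cast
        ring
      rw [h4] at h3
      have h5 : (1 : ℝ) ≤ Real.exp (1.155789499 * k) := Real.one_le_exp (by positivity)
      nlinarith)
    refine ⟨K, fun k hk => ?_⟩
    obtain ⟨n, hn0, hn, harr⟩ := hK k hk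
    have hmem : n ∈ {n : ℕ | 0 < n ∧ Arrows n k} := ⟨hn0, harr⟩
    have h1 : R k ∈ {n : ℕ | 0 < n ∧ Arrows n k} := Nat.sInf_mem ⟨n, hmem⟩
    have h2 : R k ≤ n := Nat.sInf_le hmem
    refine ⟨h1, lt_of_le_of_lt ?_ hn⟩
    exact_mod_cast h2
  refine ⟨hmain, ?_⟩
  obtain ⟨K, hK⟩ := hmain
  have hnn : ∀ᶠ k : ℕ in Filter.atTop, (0 : ℝ) ≤ Real.log (R k) / k := by
    refine Filter.Eventually.of_forall fun k => div_nonneg ?_ (Nat.cast_nonneg k)
    exact Real.log_natCast_nonneg _
  refine Filter.limsup_le_of_le ?_ ?_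
  · exact Filter.IsBoundedUnder.isCoboundedUnder_le ⟨0, Filter.eventually_map.mpr hnn⟩
  · filter_upwards [Filter.eventually_ge_atTop (max K 1)] with k hk
    have hk1 : 1 ≤ k := le_trans (le_max_right _ _) hk
    obtain ⟨⟨h1, -⟩, h2⟩ := hK k (le_trans (le_max_left _ _) hk)
    have hkpos : (0 : ℝ) < k := by exact_mod_cast hk1
    have hRpos : (0 : ℝ) < R k := by exact_mod_cast h1
    rw [div_le_iff₀ hkpos, mul_comm, ← Real.log_pow]
    exact Real.log_le_log hRpos h2.le

end Pool.Agent.Results.MP_28724c_co.DiagUpper4
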