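import Pool.Agent.W167.RN.Final

/-!
# MP_28724c_co: monochromatic cliques in independent and in noisy colourings

Let `0 < p ≤ 1/2` and `c > (p (1 - p)) ^ (-1/4)`.

1. Colour the edges of `K_n`, `n ≥ c ^ k`, red or blue independently, where the probability that an
   edge `uv` is red is an arbitrary number `q_uv ∈ [p, 1 - p]`.  Then with probability `→ 1`,
   uniformly in `(q_uv)`, there is a monochromatic `K_k`.
2. In particular, take *any* colouring of the edges of `K_n` and change the colours of the edges
   independently with probability `p` (or with probabilities in `[p, 1 - p]` depending on the edge):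
   with probability `→ 1` the result contains a monochromatic `K_k`.

So, with `2 ^ (k/2)` for `p = 1/2`, the bound interpolates between Erdős' bound for the random
colouring and the question about all colourings.  It is below the bound `3.305 ^ k` of the starting
files (valid for all colourings) as soon as `p ≥ 0.0085`.

Method.  Put `A_uv = - log q_uv`, `B_uv = - log (1 - q_uv)`; then `A_uv + B_uv ≤ log (1 / (p (1-p)))`,
so one of the two weights, say `A`, has average `α ≤ (1/2) log (1 / (p (1 - p)))`.  A vertex set `U`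
minimising (average of `A` on `U`) + `σ log (n / |U|)` has `|U| ≥ n exp (- α / σ)` and all vertices of
`U` have average weight at most `α + σ / 2` in `U`.  By Chernoff's inequality almost all `k`-subsets
`S` of `U` have all their weighted degrees at most `(α + σ) k`.  For such `S` every subset `I` has
total weight at most `(α + σ) k |I| / 2`, which is what the second moment method (with the weights
`1 / P(S is red)`) needs.
-/

set_option autoImplicit false

open MeasureTheory ProbabilityTheory

namespace Pool.Agent.Results.MP_28724c_co.NoisyColourings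

theorem result :
    ∀ p c ε : ℝ, 0 < p → p ≤ 1 / 2 → 0 < c → 1 < c ^ 4 * (p * (1 - p)) → 0 < ε →
    ∃ K : ℕ, ∀ k : ℕ, K ≤ k → ∀ n : ℕ, c ^ k ≤ (n : ℝ) →
      ∀ (Ω : Type) (_ : MeasurableSpace Ω) (μ : Measure Ω) (_ : IsProbabilityMeasure μ)
        (G : Ω → SimpleGraph (Fin n)), (∀ u v, MeasurableSet {ω | (G ω).Adj u v}) →
        -- (1) independent edges with probabilities in `[p, 1 - p]`
        ((iIndepSet (fun e : {e : Fin n × Fin n // e.1 < e.2} =>
            {ω | (G ω).Adj e.1.1 e.1.2}) μ →
          (∀ u v, u ≠ v → p ≤ μ.real {ω | (G ω).Adj u v} ∧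
            μ.real {ω | (G ω).Adj u v} ≤ 1 - p) →
          1 - ε ≤ μ.real {ω | (∃ s, (G ω).IsNClique k s) ∨ (∃ s, (G ω)ᶜ.IsNClique k s)}) ∧
        -- (2) independent changes of an arbitrary graph `H`
        (∀ H : SimpleGraph (Fin n),
          iIndepSet (fun e : {e : Fin n × Fin n // e.1 < e.2} =>
            {ω | ¬ ((G ω).Adj e.1.1 e.1.2 ↔ H.Adj e.1.1 e.1.2)}) μ →
          (∀ u v, u ≠ v → p ≤ μ.real {ω | ¬ ((G ω).Adj u v ↔ H.Adj u v)} ∧
            μ.real {ω | ¬ ((G ω).Adj u v ↔ H.Adj u v)} ≤ 1 - p) →
          1 - ε ≤ μ.real {ω | (∃ s, (G ω).IsNClique k s) ∨ (∃ s, (G ω)ᶜ.IsNClique k s)})) := by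
  intro p c ε hp0 hp1 hc0 hc hε
  obtain ⟨K, hK⟩ := Pool.Agent.W167.RN.noisy hp0 hp1 hc0 hc hε
  refine ⟨K, fun k hk n hn Ω _ μ _ G hG => ⟨fun h1 h2 => hK k hk n hn μ G hG h1 h2, ?_⟩⟩
  intro H h1 h2
  have hev : ∀ u v, {ω | ¬ ((G ω).Adj u v ↔ H.Adj u v)} = {ω | (G ω).Adj u v} ∨
      {ω | ¬ ((G ω).Adj u v ↔ H.Adj u v)} = {ω | (G ω).Adj u v}ᶜ := by
    intro u v
    by_cases h : H.Adj u v
    · right
      ext ω
      simp [h]
    · left
      ext ω
      simp [h]
  apply hK k hk n hn μ G hG
  · apply Pool.Agent.W167.RN.indep_compl h1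
    intro e
    rcases hev e.1.1 e.1.2 with h | h
    · left
      exact h.symm
    · right
      rw [h, compl_compl]
  · intro u v huv
    obtain ⟨h3, h4⟩ := h2 u v huv
    rcases hev u v with h | h
    · rw [h] at h3 h4
      exact ⟨h3, h4⟩
    · rw [h, probReal_compl_eq_one_sub (hG u v)] at h3 h4
      constructor <;> linarith

end Pool.Agent.Results.MP_28724c_co.NoisyColourings
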