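import Pool.Agent.H111R2.Final
import Pool.Agent.H111R2.DataXF
import Pool.Agent.W87.Restr

/-!
MP_28724c_co, pseudorandom colourings: if the red graph is locally dense above the scale `n ^ 0.502`
(in particular if the colouring is pseudorandom, such as the colourings given by Paley graphs), then
`n ≥ 2.9 ^ k` vertices force a monochromatic `K_k`, instead of the `3.305 ^ k` for general colourings.
-/

namespace Pool.Agent.Results.MP_28724c_co.PseudorandomColourings

open Pool.Agent.H111R2 Pool.Agent.W87.Restr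

/-- numerical verification of the rate -/
lemma rate_lt {x y θ d u v c : ℝ} (hx : 0 ≤ x) (hy : 0 < y) (hθ0 : 0 ≤ θ) (hθ1 : θ ≤ 1)
    (hd0 : 0 < d) (hd1 : d < 1) (hu : Real.log (1 / d) ≤ u) (hv : Real.exp v ≤ c)
    (hnum : (x + y) * u < v * (θ * u + (1 - θ) * y)) : rate x y θ d < Real.log c := by
  have hL : 0 < Real.log (1 / d) := Real.log_pos (by rw [lt_div_iff₀ hd0]; linarith)
  have hu0 : 0 < u := hL.trans_le hu
  have hden := rate_den_pos hy hθ0 hθ1 hd0 hd1
  have hden2 := rate_den_pos (Y := y) hy hθ0 hθ1 hd0 hd1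
  have h1 : θ + (1 - θ) * (y / u) ≤ θ + (1 - θ) * (y / Real.log (1 / d)) := by
    have : y / u ≤ y / Real.log (1 / d) := div_le_div_of_nonneg_left hy.le hL hu
    nlinarith [mul_le_mul_of_nonneg_left this (by linarith : 0 ≤ 1 - θ)]
  have h0 : 0 < θ + (1 - θ) * (y / u) := by
    have h2 : 0 < y / u := div_pos hy hu0
    rcases hθ0.eq_or_lt with h | h
    · rw [← h]; simpa using h2
    · have : 0 ≤ (1 - θ) * (y / u) := mul_nonneg (by linarith) h2.le
      linarith
  have h2 : rate x y θ d ≤ (x + y) / (θ + (1 - θ) * (y / u)) := by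
    unfold rate
    exact div_le_div_of_nonneg_left (by linarith) h0 h1
  have h3 : (x + y) / (θ + (1 - θ) * (y / u)) < v := by
    rw [div_lt_iff₀ h0]
    have h4 : v * (θ + (1 - θ) * (y / u)) = v * (θ * u + (1 - θ) * y) / u := by
      field_simp
    rw [h4, lt_div_iff₀ hu0]
    exact hnum
  have h5 : v ≤ Real.log c := by
    have : 0 < c := (Real.exp_pos v).trans_le hv
    rw [Real.le_log_iff_exp_le this]
    exact hv
  linarith

lemma log_bound : Real.log (1 / (0.49999 : ℝ)) ≤ 0.693168 := by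
  have h1 : (1:ℝ) / 0.49999 = 2 * (1 / 0.99998) := by norm_num
  rw [h1, Real.log_mul (by norm_num) (by norm_num)]
  have h2 := Real.log_two_lt_d9
  have h3 : Real.log (1 / (0.99998:ℝ)) ≤ 1 / 0.99998 - 1 := Real.log_le_sub_one_of_pos (by norm_num)
  have h4 : (1:ℝ) / 0.99998 - 1 ≤ 0.0000200005 := by norm_num
  linarith

lemma exp_bound_aux {v a b c : ℝ} (ha : v = 1 + a) (h0 : 0 ≤ a) (h1 : a ≤ 1)
    (hb : (Finset.range 8).sum (fun m => a ^ m / (m.factorial : ℝ)) + a ^ 8 * (8 + 1) / ((Nat.factorial 8 : ℝ) * 8) ≤ b)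
    (hc : 2.7182818286 * b ≤ c) : Real.exp v ≤ c := by
  have h2 := Real.exp_one_lt_d9
  have h3 := Real.exp_bound' h0 h1 (n := 8) (by norm_num)
  rw [ha, Real.exp_add]
  have h4 : Real.exp a ≤ b := h3.trans (by simpa using hb)
  have h5 : 0 < Real.exp a := Real.exp_pos a
  calc Real.exp 1 * Real.exp a ≤ 2.7182818286 * b :=
        mul_le_mul h2.le h4 h5.le (by norm_num)
    _ ≤ c := hc

/-- the general consequence of the certificate for one pair `(θ, c)` -/
lemma both {f : ℕ × ℕ} (hf : f ∈ claims3 cellsX) (hf2 : 0 < f.2) {θ θ' c : ℝ} (hθ0 : 0 ≤ θ)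
    (hθ1 : θ ≤ 1) (hθ' : θ' < θ) (hc1 : 1 < c)
    (hc : rate ((f.1 : ℝ) / D) ((f.2 : ℝ) / D) θ 0.49999 < Real.log c) (B : ℝ) :
    ∃ K : ℕ, ∀ k : ℕ, K ≤ k → ∀ {V : Type} [Fintype V] (G : SimpleGraph V),
      c ^ k ≤ (Fintype.card V : ℝ) →
      (DenseAbove G 0.49999 ((Fintype.card V : ℝ) ^ θ') ∨
        Bijumbled G (1 / 2) (B * (Fintype.card V : ℝ) ^ θ')) →
      (∃ s : Finset V, G.IsNClique k s) ∨ (∃ s : Finset V, Gᶜ.IsNClique k s) := by
  obtain ⟨C, hC, h⟩ := main_of_check3 mbX maX cellsX checkX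
  obtain ⟨K1, hK1⟩ := main hC hf (fun k l => h k l) hf2 hθ0 hθ1 (by norm_num) (by norm_num)
    (by linarith) hc
  obtain ⟨K2, hK2⟩ := mainBij hC hf (fun k l => h k l) hf2 hθ0 hθ1 (d := 0.49999) (p := 1 / 2)
    (by norm_num) (by norm_num) hc1 (by norm_num) hθ' hc B
  refine ⟨max K1 K2, fun k hk V _ G hn hor => ?_⟩
  rcases hor with hd | hb
  · refine hK1 k ((le_max_left _ _).trans hk) G hn ?_
    intro W hW
    refine hd W (le_trans ?_ hW)
    have h1 : (1:ℝ) ≤ (Fintype.card V : ℝ) := (one_le_pow₀ hc1.le).trans hn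
    exact Real.rpow_le_rpow_of_exponent_le h1 hθ'.le
  · exact hK2 k ((le_max_right _ _).trans hk) G hn hb

/-- **Ramsey bounds for locally dense and for pseudorandom colourings.** For the pairs
`(θ, c) = (0.502, 2.9), (0.6, 3.1), (0.7, 3.24)` and every `B`, if `k` is large, `n ≥ c ^ k` and `G`
is a graph on `n` vertices such that either every set `W` of at least `n ^ θ` vertices spans at least
`0.49999 |W|² / 2` edges, or `|e(X, Y) - |X||Y|/2| ≤ B n ^ θ √(|X||Y|)` for all vertex sets `X, Y`,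
then `G` has a clique or an independent set of size `k`. -/
theorem result : ∀ θ c : ℝ, (θ, c) ∈ ([(0.502, 2.9), (0.6, 3.1), (0.7, 3.24)] : List (ℝ × ℝ)) →
    ∀ B : ℝ, ∃ K : ℕ, ∀ k : ℕ, K ≤ k → ∀ (V : Type) [Fintype V] (G : SimpleGraph V),
      c ^ k ≤ (Fintype.card V : ℝ) →
      (DenseAbove G 0.49999 ((Fintype.card V : ℝ) ^ θ) ∨
        Bijumbled G (1 / 2) (B * (Fintype.card V : ℝ) ^ θ)) →
      (∃ s : Finset V, G.IsNClique k s) ∨ (∃ s : Finset V, Gᶜ.IsNClique k s) := by
  have hD : ((D:ℕ):ℝ) = 1000000000 := by norm_num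
  intro θ c hmem B
  simp only [List.mem_cons, Prod.mk.injEq, List.not_mem_nil, or_false] at hmem
  rcases hmem with ⟨rfl, rfl⟩ | ⟨rfl, rfl⟩ | ⟨rfl, rfl⟩
  · obtain ⟨K, hK⟩ := both (f := (201909140, 1413962000)) (by rw [clX_eq]; decide +kernel)
      (by norm_num) (θ := 0.50201) (θ' := 0.502) (c := 2.9) (by norm_num) (by norm_num)
      (by norm_num) (by norm_num) (by
        rw [hD]
        refine rate_lt (u := 0.693168) (v := 1.0647) (by norm_num) (by norm_num) (by norm_num)
          (by norm_num) (by norm_num) (by norm_num) log_bound ?_ (by norm_num)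
        refine exp_bound_aux (a := 0.0647) (b := 1.066839) (by norm_num) (by norm_num) (by norm_num) ?_ ?_
        · simp only [Finset.sum_range_succ, Finset.sum_range_zero, Nat.factorial]
          norm_num
        · norm_num) B
    exact ⟨K, fun k hk V _ G => hK k hk G⟩
  · obtain ⟨K, hK⟩ := both (f := (277959510, 1144630000)) (by rw [clX_eq]; decide +kernel)
      (by norm_num) (θ := 0.6001) (θ' := 0.6) (c := 3.1) (by norm_num) (by norm_num)
      (by norm_num) (by norm_num) (by
        rw [hD]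
        refine rate_lt (u := 0.693168) (v := 1.131) (by norm_num) (by norm_num) (by norm_num)
          (by norm_num) (by norm_num) (by norm_num) log_bound ?_ (by norm_num)
        refine exp_bound_aux (a := 0.131) (b := 1.14) (by norm_num) (by norm_num) (by norm_num) ?_ ?_
        · simp only [Finset.sum_range_succ, Finset.sum_range_zero, Nat.factorial]
          norm_num
        · norm_num) B
    exact ⟨K, fun k hk V _ G => hK k hk G⟩
  · obtain ⟨K, hK⟩ := both (f := (364331363, 932114000)) (by rw [clX_eq]; decide +kernel)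
      (by norm_num) (θ := 0.7001) (θ' := 0.7) (c := 3.24) (by norm_num) (by norm_num)
      (by norm_num) (by norm_num) (by
        rw [hD]
        refine rate_lt (u := 0.693168) (v := 1.1755) (by norm_num) (by norm_num) (by norm_num)
          (by norm_num) (by norm_num) (by norm_num) log_bound ?_ (by norm_num)
        refine exp_bound_aux (a := 0.1755) (b := 1.19185) (by norm_num) (by norm_num) (by norm_num) ?_ ?_
        · simp only [Finset.sum_range_succ, Finset.sum_range_zero, Nat.factorial]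
          norm_num
        · norm_num) B
    exact ⟨K, fun k hk V _ G => hK k hk G⟩

end Pool.Agent.Results.MP_28724c_co.PseudorandomColourings
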